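import Pool.Agent.Helper867_Rae.Stmts

/-!
Lemma D: counting part.
-/

set_option autoImplicit false
set_option linter.unusedSectionVars false

namespace Pool.Agent.Helper695_Rae

open Module

section
variable {k V P T : Type} [Field k] [AddCommGroup V] [Module k V] [FiniteDimensional k V]
  [Group P] [MulAction P T]

theorem count_low [Finite T] (π : T → V →ₗ[k] V) (Wt : T → Submodule k V) (d : ℕ)
    (h2 : ∀ τ, ∀ v ∈ Wt τ, π τ v = v) (h3 : ∀ τ τ', τ' ≠ τ → ∀ v ∈ Wt τ', π τ v = 0)
    (h5 : ∀ τ, finrank k (Wt τ) = d) : Nat.card T * d ≤ finrank k V := by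
  classical
  have := Fintype.ofFinite T
  let g : ((τ : T) → Wt τ) →ₗ[k] V := ∑ τ, (Wt τ).subtype ∘ₗ LinearMap.proj τ
  have hg : ∀ w : (τ : T) → Wt τ, g w = ∑ τ, (w τ : V) := by
    intro w
    simp [g, LinearMap.sum_apply]
  have hinj : Function.Injective g := by
    rw [← LinearMap.ker_eq_bot, LinearMap.ker_eq_bot']
    intro w hw
    rw [hg] at hw
    funext τ
    have h := congrArg (π τ) hw
    rw [map_sum, map_zero, Finset.sum_eq_single τ] at h
    · rw [h2 τ _ (w τ).2] at h
      exact Subtype.ext h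
    · intro τ' _ hne
      exact h3 τ τ' hne _ (w τ').2
    · intro h
      exact (h (Finset.mem_univ _)).elim
  have h := LinearMap.finrank_le_finrank_of_injective hinj
  rw [finrank_pi_fintype] at h
  simp only [h5, Finset.sum_const, Finset.card_univ, smul_eq_mul] at h
  rwa [Nat.card_eq_fintype_card]

theorem count_up [Finite T] (F : Submodule k V) (π : T → V →ₗ[k] V) (Wt : T → Submodule k V)
    (d : ℕ) (h1 : ∀ τ v, π τ v ∈ Wt τ) (h4 : ∀ v, (∀ τ, π τ v = 0) → v = 0)
    (h5 : ∀ τ, finrank k (Wt τ) = d)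
    (h6 : ∀ (x : P) (τ : T), ∀ v ∈ F, π τ v = 0 → π (x • τ) v = 0) :
    finrank k F ≤ Nat.card (Quotient (MulAction.orbitRel P T)) * d := by
  classical
  have := Fintype.ofFinite T
  have : Finite (Quotient (MulAction.orbitRel P T)) := Quotient.finite _
  have := Fintype.ofFinite (Quotient (MulAction.orbitRel P T))
  let g : F →ₗ[k] ((ω : Quotient (MulAction.orbitRel P T)) → Wt ω.out) :=
    LinearMap.pi (fun ω => (LinearMap.codRestrict (Wt ω.out) (π ω.out) (h1 ω.out)) ∘ₗ F.subtype)
  have hinj : Function.Injective g := by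
    rw [← LinearMap.ker_eq_bot, LinearMap.ker_eq_bot']
    intro v hv
    apply Subtype.ext
    apply h4
    intro τ
    have hω : π (Quotient.mk (MulAction.orbitRel P T) τ).out v = 0 :=
      congrArg Subtype.val (congrFun hv (Quotient.mk (MulAction.orbitRel P T) τ))
    have hrel : (MulAction.orbitRel P T).r τ (Quotient.mk (MulAction.orbitRel P T) τ).out :=
      @Quotient.exact T (MulAction.orbitRel P T) _ _
        (Quotient.out_eq (Quotient.mk (MulAction.orbitRel P T) τ)).symm
    obtain ⟨x, hx⟩ := hrel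
    have h := h6 x _ v v.2 hω
    simp only at hx
    rwa [hx] at h
  have h := LinearMap.finrank_le_finrank_of_injective hinj
  rw [finrank_pi_fintype] at h
  simp only [h5, Finset.sum_const, Finset.card_univ, smul_eq_mul] at h
  rwa [Nat.card_eq_fintype_card]

/-- Burnside: if there are at least `|T| / (|P| - 1)` orbits then some nontrivial element fixes
many points -/
theorem burnside [Finite P] [Finite T] [Nonempty T] (hP : ∃ x : P, x ≠ 1)
    (h : Nat.card T ≤ (Nat.card P - 1) * Nat.card (Quotient (MulAction.orbitRel P T))) :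
    ∃ x : P, x ≠ 1 ∧ Nat.card T ≤ (Nat.card P) ^ 2 * Nat.card (MulAction.fixedBy T x) := by
  classical
  have := Fintype.ofFinite T
  have := Fintype.ofFinite P
  have : Finite (Quotient (MulAction.orbitRel P T)) := Quotient.finite _
  have := Fintype.ofFinite (Quotient (MulAction.orbitRel P T))
  by_contra hcon
  push Not at hcon
  have hb := MulAction.sum_card_fixedBy_eq_card_orbits_mul_card_group P T
  set t := Nat.card T with ht
  set m := Nat.card P with hm
  set o := Nat.card (Quotient (MulAction.orbitRel P T)) with ho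
  have hm1 : 1 ≤ m := Nat.card_pos
  have e1 : ∑ a : P, Fintype.card (MulAction.fixedBy T a) = o * m := by
    rw [hb, ho, hm, Nat.card_eq_fintype_card, Nat.card_eq_fintype_card]
  rw [← Finset.add_sum_erase _ _ (Finset.mem_univ (1 : P))] at e1
  have e2 : Fintype.card (MulAction.fixedBy T (1 : P)) ≤ t := by
    rw [ht, Nat.card_eq_fintype_card]
    exact Fintype.card_subtype_le _
  have e3 : m ^ 2 * ∑ a ∈ Finset.univ.erase (1 : P), Fintype.card (MulAction.fixedBy T a) ≤
      (m - 1) * t := by
    rw [Finset.mul_sum]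
    have : ∑ a ∈ Finset.univ.erase (1 : P), m ^ 2 * Fintype.card (MulAction.fixedBy T a) ≤
        ∑ a ∈ Finset.univ.erase (1 : P), t := by
      refine Finset.sum_le_sum (fun a ha => ?_)
      have := hcon a (Finset.mem_erase.1 ha).1
      rw [Nat.card_eq_fintype_card] at this
      exact this.le
    refine this.trans ?_
    rw [Finset.sum_const, smul_eq_mul, Finset.card_erase_of_mem (Finset.mem_univ _),
      Finset.card_univ, hm, Nat.card_eq_fintype_card]
  have htpos : 0 < t := Nat.card_pos
  -- strict inequality from one nontrivial element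
  have e4 : m ^ 2 * ∑ a ∈ Finset.univ.erase (1 : P), Fintype.card (MulAction.fixedBy T a) <
      (m - 1) * t := by
    rw [Finset.mul_sum]
    obtain ⟨x, hx⟩ := hP
    have : ∑ a ∈ Finset.univ.erase (1 : P), m ^ 2 * Fintype.card (MulAction.fixedBy T a) <
        ∑ a ∈ Finset.univ.erase (1 : P), t := by
      refine Finset.sum_lt_sum_of_nonempty ⟨x, Finset.mem_erase.2 ⟨hx, Finset.mem_univ _⟩⟩
        (fun a ha => ?_)
      have := hcon a (Finset.mem_erase.1 ha).1
      rwa [Nat.card_eq_fintype_card] at this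
    refine this.trans_le ?_
    rw [Finset.sum_const, smul_eq_mul, Finset.card_erase_of_mem (Finset.mem_univ _),
      Finset.card_univ, hm, Nat.card_eq_fintype_card]
  obtain ⟨m', hm'⟩ : ∃ m', m = m' + 1 := ⟨m - 1, by omega⟩
  rw [hm'] at h e1 e4
  simp only [Nat.add_sub_cancel] at h e4
  set f := ∑ a ∈ Finset.univ.erase (1 : P), Fintype.card (MulAction.fixedBy T a) with hf
  -- t ≤ m' o ; o (m'+1) ≤ t + f ; (m'+1)^2 f < m' t
  have k1 : o * (m' + 1) ≤ t + f := by omega
  have k2 : t * (m' + 1) ≤ m' * (t + f) := by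
    calc t * (m' + 1) ≤ (m' * o) * (m' + 1) := Nat.mul_le_mul_right _ h
      _ = m' * (o * (m' + 1)) := by ring
      _ ≤ m' * (t + f) := Nat.mul_le_mul_left _ k1
  have k3 : t ≤ m' * f := by nlinarith
  have k4 : (m' + 1) ^ 2 * f < m' * (m' * f) := lt_of_lt_of_le e4 (Nat.mul_le_mul_left _ k3)
  nlinarith

end

end Pool.Agent.Helper695_Rae
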