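import Pool.Agent.Helper695_Rae.D1
import Pool.Agent.Helper695_Rae.DCount

/-!
Lemma D.
-/

set_option autoImplicit false
set_option linter.unusedSectionVars false

namespace Pool.Agent.Helper695_Rae

open Module Pool.Agent.TH62.PL

section
variable {k G W : Type} [Field k] [Group G] [Finite G] [AddCommGroup W] [Module k W]
  [FiniteDimensional k W] [Nontrivial W] (ρ : G →* End k W)

theorem rho_inv (g : G) : ρ g * ρ g⁻¹ = 1 := by rw [← map_mul, mul_inv_cancel, map_one]

theorem rho_inv' (g : G) : ρ g⁻¹ * ρ g = 1 := by rw [← map_mul, inv_mul_cancel, map_one]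

theorem smul_one_inj {a a' : k} (h : a • (1 : End k W) = a' • (1 : End k W)) : a = a' := by
  obtain ⟨v, hv⟩ := exists_ne (0 : W)
  have h1 := congrArg (fun F : End k W => F v) h
  simp only [LinearMap.smul_apply, End.one_apply] at h1
  exact smul_left_injective k hv h1

theorem smul_rho_inj {a a' : k} {g : G} (h : a • ρ g = a' • ρ g) : a = a' := by
  have h1 := congrArg (fun F : End k W => F * ρ g⁻¹) h
  simp only [smul_mul_assoc, rho_inv] at h1
  exact smul_one_inj h1

/-- conjugation on endomorphisms -/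
def cj (g : G) : End k W →ₗ[k] End k W where
  toFun φ := ρ g * φ * ρ g⁻¹
  map_add' a b := by rw [mul_add, add_mul]
  map_smul' a b := by rw [mul_smul_comm, smul_mul_assoc]; rfl

theorem cj_apply (g : G) (φ : End k W) : cj ρ g φ = ρ g * φ * ρ g⁻¹ := rfl

theorem cj_mul (g h : G) (φ : End k W) : cj ρ (g * h) φ = cj ρ g (cj ρ h φ) := by
  simp only [cj_apply, map_mul, mul_inv_rev, mul_assoc]

/-- the data of Lemma D concerning `E` -/
structure Pair (E E0 : Subgroup G) (b : E → E → k) : Prop where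
  h0 : ∀ e : G, e ∈ E0 ↔ e ∈ E ∧ ∃ a : k, ρ e = a • (1 : End k W)
  hnd : ∀ e ∈ E, (∀ f ∈ E, ρ (e * f) = ρ (f * e)) → e ∈ E0
  hc : ((Nat.card E : ℕ) : k) ≠ 0
  hb : ∀ s t : E, ρ (s * t * s⁻¹ * t⁻¹ : E) = b s t • (1 : End k W)

namespace Pair
variable {ρ} {E E0 : Subgroup G} {b : E → E → k} (H : Pair ρ E E0 b)
include H

theorem comm (s t : E) : ρ s * ρ t = b s t • (ρ t * ρ s) := by
  have h1 : (s : G) * t = ((s * t * s⁻¹ * t⁻¹ : E) : G) * (t * s) := by
    push_cast
    group
  rw [← map_mul, h1, map_mul, H.hb, smul_mul_assoc, one_mul, map_mul]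

theorem b_eq {s t : E} {a : k} (h : ρ s * ρ t = a • (ρ t * ρ s)) : b s t = a := by
  rw [H.comm, ← map_mul] at h
  exact smul_rho_inj ρ h

theorem b_mul_right (s t t' : E) : b s (t * t') = b s t * b s t' := by
  apply H.b_eq
  push_cast
  rw [map_mul, ← mul_assoc, H.comm s t, smul_mul_assoc, mul_assoc, H.comm s t', mul_smul_comm,
    smul_smul, mul_assoc]

theorem b_mul_left (s s' t : E) : b (s * s') t = b s t * b s' t := by
  apply H.b_eq
  push_cast
  rw [map_mul, mul_assoc, H.comm s' t, mul_smul_comm, ← mul_assoc, H.comm s t, smul_mul_assoc,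
    smul_smul, mul_assoc, mul_comm (b s' t)]

theorem b_one_left (t : E) : b 1 t = 1 := by
  apply H.b_eq
  simp

theorem b_one_right (t : E) : b t 1 = 1 := by
  apply H.b_eq
  simp

theorem b_ne (s t : E) : b s t ≠ 0 := by
  intro h
  have h1 := H.b_mul_left s s⁻¹ t
  rw [mul_inv_cancel, H.b_one_left, h, zero_mul] at h1
  exact one_ne_zero h1

theorem b_of_mem_right (s t : E) (ht : (t : G) ∈ E0) : b s t = 1 := by
  obtain ⟨-, a, ha⟩ := (H.h0 t).1 ht
  apply H.b_eq
  rw [ha]
  simp

theorem b_of_mem_left (s t : E) (hs : (s : G) ∈ E0) : b s t = 1 := by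
  obtain ⟨-, a, ha⟩ := (H.h0 s).1 hs
  apply H.b_eq
  rw [ha]
  simp

theorem mem_of_right (t : E) (h : ∀ s : E, b s t = 1) : (t : G) ∈ E0 := by
  apply H.hnd t t.2
  intro f hf
  have := H.comm ⟨f, hf⟩ t
  rw [h, one_smul] at this
  rw [map_mul, map_mul]
  exact this.symm

theorem mem_of_left (s : E) (h : ∀ t : E, b s t = 1) : (s : G) ∈ E0 := by
  apply H.hnd s s.2
  intro f hf
  have := H.comm s ⟨f, hf⟩
  rw [h, one_smul] at this
  rw [map_mul, map_mul]
  exact this

theorem normal : (E0.subgroupOf E).Normal := by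
  constructor
  intro n hn g
  rw [Subgroup.mem_subgroupOf] at hn ⊢
  obtain ⟨-, a, ha⟩ := (H.h0 n).1 hn
  rw [H.h0]
  refine ⟨(g * n * g⁻¹).2, a, ?_⟩
  push_cast
  rw [map_mul, map_mul, ha]
  simp [rho_inv]

theorem out_eq (s t : E) : b s ((QuotientGroup.mk t : E ⧸ E0.subgroupOf E).out) = b s t := by
  obtain ⟨h, hh⟩ := QuotientGroup.mk_out_eq_mul (E0.subgroupOf E) t
  rw [hh, H.b_mul_right, H.b_of_mem_right s h h.2, mul_one]

end Pair

/-- weight spaces -/
def Wt {E E0 : Subgroup G} (b : E → E → k) (τ : E ⧸ E0.subgroupOf E) :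
    Submodule k (End k W) where
  carrier := {φ | ∀ s : E, cj ρ s φ = b s τ.out • φ}
  add_mem' := by
    intro φ ψ h h' s
    rw [map_add, h s, h' s, smul_add]
  zero_mem' := by
    intro s
    simp
  smul_mem' := by
    intro c φ h s
    rw [map_smul, h s, smul_comm]

open Classical in
/-- projections -/
noncomputable def pr {E E0 : Subgroup G} [Fintype E] (b : E → E → k)
    (τ : E ⧸ E0.subgroupOf E) : End k W →ₗ[k] End k W :=
  ((Nat.card E : ℕ) : k)⁻¹ • ∑ s : E, (b s τ.out)⁻¹ • cj ρ s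

theorem pr_apply {E E0 : Subgroup G} [Fintype E] (b : E → E → k)
    (τ : E ⧸ E0.subgroupOf E) (φ : End k W) :
    pr ρ b τ φ = ((Nat.card E : ℕ) : k)⁻¹ • ∑ s : E, (b s τ.out)⁻¹ • cj ρ s φ := by
  simp [pr, LinearMap.sum_apply]

namespace Pair
variable {ρ} {E E0 : Subgroup G} {b : E → E → k} (H : Pair ρ E E0 b) [Fintype E]
include H

theorem pr_mem (τ : E ⧸ E0.subgroupOf E) (φ : End k W) : pr ρ b τ φ ∈ Wt ρ b τ := by
  intro s'
  rw [pr_apply, map_smul, map_sum, smul_comm (b s' τ.out)]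
  congr 1
  rw [Finset.smul_sum]
  refine Fintype.sum_equiv (Equiv.mulLeft s') _ _ ?_
  intro s
  rw [Equiv.coe_mulLeft, map_smul, ← cj_mul, H.b_mul_left, smul_smul]
  have h1 := H.b_ne s' τ.out
  have h2 := H.b_ne s τ.out
  congr 1
  field_simp

theorem pr_of_mem (τ τ' : E ⧸ E0.subgroupOf E) {φ : End k W} (hφ : φ ∈ Wt ρ b τ') :
    ∃ a : k, pr ρ b τ φ = a • φ := by
  refine ⟨((Nat.card E : ℕ) : k)⁻¹ * ∑ s : E, (b s τ.out)⁻¹ * b s τ'.out, ?_⟩
  rw [pr_apply, mul_smul, Finset.sum_smul]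
  congr 1
  refine Finset.sum_congr rfl (fun s _ => ?_)
  rw [hφ s, smul_smul]

theorem pr_self (τ : E ⧸ E0.subgroupOf E) {φ : End k W} (hφ : φ ∈ Wt ρ b τ) :
    pr ρ b τ φ = φ := by
  rw [pr_apply]
  have h1 : ∀ s : E, (b s τ.out)⁻¹ • cj ρ s φ = φ := by
    intro s
    rw [hφ s, smul_smul, inv_mul_cancel₀ (H.b_ne _ _), one_smul]
  rw [Finset.sum_congr rfl (fun s _ => h1 s), Finset.sum_const, Finset.card_univ,
    ← Nat.card_eq_fintype_card, ← Nat.cast_smul_eq_nsmul k, smul_smul,
    inv_mul_cancel₀ H.hc, one_smul]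

theorem pr_other (τ τ' : E ⧸ E0.subgroupOf E) (hne : τ' ≠ τ) {φ : End k W}
    (hφ : φ ∈ Wt ρ b τ') : pr ρ b τ φ = 0 := by
  by_contra hu
  obtain ⟨a, ha⟩ := H.pr_of_mem τ τ' hφ
  have h1 := H.pr_mem τ φ
  have h2 : pr ρ b τ φ ∈ Wt ρ b τ' := by
    rw [ha]
    exact Submodule.smul_mem _ _ hφ
  have h3 : ∀ s : E, b s τ.out = b s τ'.out := by
    intro s
    have := (h1 s).symm.trans (h2 s)
    exact smul_left_injective k hu this
  have h4 : ((τ.out⁻¹ * τ'.out : E) : G) ∈ E0 := by
    apply H.mem_of_right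
    intro s
    rw [H.b_mul_right, ← h3 s, ← H.b_mul_right, inv_mul_cancel, H.b_one_right]
  apply hne
  have h5 : (QuotientGroup.mk τ.out : E ⧸ E0.subgroupOf E) = QuotientGroup.mk τ'.out :=
    QuotientGroup.eq.2 h4
  rw [QuotientGroup.out_eq', QuotientGroup.out_eq'] at h5
  exact h5.symm

theorem char_sum (s : E) (hs : (s : G) ∉ E0) : ∑ t : E, (b s t)⁻¹ = 0 := by
  obtain ⟨f, hf⟩ : ∃ f : E, b s f ≠ 1 := by
    by_contra hcon
    push Not at hcon
    exact hs (H.mem_of_left s hcon)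
  have h1 : ∑ t : E, (b s t)⁻¹ = (b s f)⁻¹ * ∑ t : E, (b s t)⁻¹ := by
    rw [Finset.mul_sum]
    symm
    refine Fintype.sum_equiv (Equiv.mulLeft f) _ _ ?_
    intro t
    rw [Equiv.coe_mulLeft, H.b_mul_right, mul_inv]
  have h2 : (1 - (b s f)⁻¹) * ∑ t : E, (b s t)⁻¹ = 0 := by
    rw [sub_mul, one_mul, ← h1, sub_self]
  rcases mul_eq_zero.1 h2 with h3 | h3
  · exfalso
    apply hf
    have := sub_eq_zero.1 h3
    rw [← inv_inv (b s f), ← this, inv_one]
  · exact h3

theorem pr_total {φ : End k W} (hφ : ∀ τ : E ⧸ E0.subgroupOf E, pr ρ b τ φ = 0) : φ = 0 := by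
  classical
  have h1 : ∑ t : E, pr ρ b (QuotientGroup.mk t : E ⧸ E0.subgroupOf E) φ = 0 :=
    Finset.sum_eq_zero (fun t _ => hφ _)
  have h2 : ∑ t : E, ∑ s : E, (b s t)⁻¹ • cj ρ s φ = 0 := by
    have h3 : ∀ t : E, ∑ s : E, (b s t)⁻¹ • cj ρ s φ =
        ((Nat.card E : ℕ) : k) • pr ρ b (QuotientGroup.mk t : E ⧸ E0.subgroupOf E) φ := by
      intro t
      rw [pr_apply, smul_smul, mul_inv_cancel₀ H.hc, one_smul]
      exact Finset.sum_congr rfl (fun s _ => by rw [H.out_eq])
    rw [Finset.sum_congr rfl (fun t _ => h3 t), ← Finset.smul_sum, h1, smul_zero]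
  rw [Finset.sum_comm] at h2
  have h4 : ∀ s : E, ∑ t : E, (b s t)⁻¹ • cj ρ s φ =
      if (s : G) ∈ E0 then ((Nat.card E : ℕ) : k) • φ else 0 := by
    intro s
    rw [← Finset.sum_smul]
    by_cases hs : (s : G) ∈ E0
    · rw [if_pos hs]
      have h5 : ∑ t : E, (b s t)⁻¹ = ((Nat.card E : ℕ) : k) := by
        rw [Finset.sum_congr rfl (fun t _ => by rw [H.b_of_mem_left s t hs, inv_one])]
        simp [Nat.card_eq_fintype_card]
      have h6 : cj ρ s φ = φ := by
        obtain ⟨-, a, ha⟩ := (H.h0 s).1 hs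
        rw [cj_apply, ha, smul_mul_assoc, one_mul, smul_mul_assoc, ← mul_smul_comm, ← one_mul (a • ρ _)]
        rw [one_mul]
        have h7 : a • ρ (s : G)⁻¹ = 1 := by
          rw [← rho_inv ρ (s : G), ha, smul_mul_assoc, one_mul]
        rw [h7, mul_one]
      rw [h5, h6]
    · rw [if_neg hs, H.char_sum s hs, zero_smul]
  rw [Finset.sum_congr rfl (fun s _ => h4 s), Finset.sum_ite, Finset.sum_const_zero, add_zero,
    Finset.sum_const, ← Nat.cast_smul_eq_nsmul k, smul_smul] at h2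
  rcases smul_eq_zero.1 h2 with h5 | h5
  · exfalso
    rcases mul_eq_zero.1 h5 with h6 | h6
    · -- the number of elements of E0 divides that of E
      have h7 : (Finset.univ.filter (fun s : E => (s : G) ∈ E0)).card =
          Nat.card (E0.subgroupOf E) := by
        rw [Nat.card_eq_fintype_card, Fintype.card_subtype]
        rfl
      rw [h7] at h6
      have h8 : Nat.card (E0.subgroupOf E) ∣ Nat.card E := Subgroup.card_subgroup_dvd_card _
      obtain ⟨c, hc⟩ := h8
      apply H.hc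
      rw [hc, Nat.cast_mul, h6, zero_mul]
    · exact H.hc h6
  · exact h5

theorem finrank_le (τ : E ⧸ E0.subgroupOf E) (t : E) :
    finrank k (Wt ρ b (E0 := E0) τ) ≤
      finrank k (Wt ρ b (E0 := E0) (QuotientGroup.mk (τ.out * t))) := by
  let g : Wt ρ b (E0 := E0) τ →ₗ[k] Wt ρ b (E0 := E0) (QuotientGroup.mk (τ.out * t)) :=
    { toFun := fun φ => ⟨(φ : End k W) * ρ t, by
        intro s
        rw [H.out_eq, H.b_mul_right]
        have h1 := φ.2 s
        rw [cj_apply] at h1 ⊢
        have h2 : ρ s * (φ : End k W) = b s τ.out • ((φ : End k W) * ρ s) := by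
          have h3 : ρ (s : G) * (φ : End k W) = (ρ s * (φ : End k W) * ρ (s : G)⁻¹) * ρ s := by
            rw [mul_assoc (ρ (s : G) * (φ : End k W)), rho_inv', mul_one]
          rw [h3, h1, smul_mul_assoc]
        rw [← mul_assoc, h2, smul_mul_assoc, mul_assoc (φ : End k W), H.comm s t, mul_smul_comm,
          smul_mul_assoc, smul_mul_assoc, smul_smul, mul_assoc, mul_assoc, rho_inv, mul_one]⟩
      map_add' := by
        intro φ ψ
        apply Subtype.ext
        simp [add_mul]
      map_smul' := by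
        intro c φ
        apply Subtype.ext
        simp }
  refine LinearMap.finrank_le_finrank_of_injective (f := g) ?_
  intro φ ψ h
  apply Subtype.ext
  have h1 : (φ : End k W) * ρ t = (ψ : End k W) * ρ t := congrArg Subtype.val h
  have h2 := congrArg (fun F => F * ρ (t : G)⁻¹) h1
  simp only [mul_assoc, rho_inv, mul_one] at h2
  exact h2

theorem finrank_eq (τ : E ⧸ E0.subgroupOf E) :
    finrank k (Wt ρ b (E0 := E0) τ) =
      finrank k (Wt ρ b (E0 := E0) (QuotientGroup.mk 1)) := by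
  apply le_antisymm
  · have h := H.finrank_le τ τ.out⁻¹
    rwa [mul_inv_cancel] at h
  · have h := H.finrank_le (QuotientGroup.mk 1)
      ((QuotientGroup.mk 1 : E ⧸ E0.subgroupOf E).out⁻¹ * τ.out)
    rwa [mul_inv_cancel_left, QuotientGroup.out_eq'] at h

end Pair

/-- conjugation by an element normalising `E` -/
def cE (E : Subgroup G) (x : G) (hx : ∀ e ∈ E, x * e * x⁻¹ ∈ E) : E →* E where
  toFun e := ⟨x * e * x⁻¹, hx e e.2⟩
  map_one' := by
    apply Subtype.ext
    simp
  map_mul' a b := by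
    apply Subtype.ext
    push_cast
    group

/-- the action of `P` on `E/E0` -/
@[instance_reducible]
def act (P E E0 : Subgroup G) [(E0.subgroupOf E).Normal] (hPE : Inv P E) (hPE0 : Inv P E0) :
    MulAction P (E ⧸ E0.subgroupOf E) where
  smul x := QuotientGroup.map _ _ (cE E (x : G) (hPE x x.2)) (by
    intro e he
    exact hPE0 x x.2 _ he)
  one_smul τ := by
    induction τ using QuotientGroup.induction_on with
    | H e =>
      change QuotientGroup.mk _ = QuotientGroup.mk _
      congr 1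
      apply Subtype.ext
      simp [cE]
  mul_smul x y τ := by
    induction τ using QuotientGroup.induction_on with
    | H e =>
      change QuotientGroup.mk _ = QuotientGroup.mk _
      congr 1
      apply Subtype.ext
      simp only [cE, MonoidHom.coe_mk, OneHom.coe_mk, Subgroup.coe_mul, mul_inv_rev, mul_assoc]

theorem D_main (p q : ℕ) [Fact p.Prime] [Fact q.Prime] [CharP k q]
    (P E E0 : Subgroup G) (hpq : p ≠ q) (hP : IsPGroup p P)
    (hfix : ∀ v : W, (∀ x ∈ P, ρ x v = v) → v = 0) (hPE : Inv P E)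
    (b : E → E → k) (H : Pair ρ E E0 b) :
    ∃ x ∈ P, x ≠ 1 ∧ Pool.Agent.Helper867_Rae.Sm E E0 x ((Nat.card P) ^ 2) := by
  classical
  have := Fintype.ofFinite E
  have hN := H.normal
  have hPE0 : Inv P E0 := by
    intro x hx e he
    obtain ⟨heE, a, ha⟩ := (H.h0 e).1 he
    rw [H.h0]
    refine ⟨hPE x hx e heE, a, ?_⟩
    rw [map_mul, map_mul, ha]
    simp [rho_inv]
  let _i := act P E E0 hPE hPE0
  have hsm : ∀ (x : P) (e : E), x • (QuotientGroup.mk e : E ⧸ E0.subgroupOf E) =
      QuotientGroup.mk (cE E (x : G) (hPE x x.2) e) := fun x e => rfl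
  -- the fixed space
  let F : Submodule k (End k W) :=
    { carrier := {φ | ∀ x : P, ρ x * φ = φ * ρ x}
      add_mem' := by
        intro φ ψ h h' x
        rw [mul_add, add_mul, h x, h' x]
      zero_mem' := by
        intro x
        simp
      smul_mem' := by
        intro c φ h x
        rw [mul_smul_comm, smul_mul_assoc, h x] }
  have h1 : (finrank k W) ^ 2 ≤ (Nat.card P - 1) * finrank k F := by
    refine d1 p q k P W (ρ.comp P.subtype) F hpq hP ?_ ?_
    · intro v hv
      exact hfix v (fun x hx => hv ⟨x, hx⟩)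
    · intro φ
      exact Iff.rfl
  -- the equivariance
  have hinvb : ∀ (x : P) (s t : E), b (cE E (x : G) (hPE x x.2) s) (cE E (x : G) (hPE x x.2) t) =
      b s t := by
    intro x s t
    apply H.b_eq
    have e1 : ∀ e : E, ρ ((cE E (x : G) (hPE x x.2) e : E) : G) = ρ x * ρ e * ρ (x : G)⁻¹ := by
      intro e
      rw [← map_mul, ← map_mul]
      rfl
    rw [e1, e1]
    have e2 : ∀ A B : End k W, (ρ (x : G) * A * ρ (x : G)⁻¹) * (ρ (x : G) * B * ρ (x : G)⁻¹) =
        ρ (x : G) * (A * B) * ρ (x : G)⁻¹ := by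
      intro A B
      have : (ρ (x : G) * A * ρ (x : G)⁻¹) * (ρ (x : G) * B * ρ (x : G)⁻¹) =
        ρ (x : G) * A * (ρ (x : G)⁻¹ * ρ (x : G)) * B * ρ (x : G)⁻¹ := by
        simp only [mul_assoc]
      rw [this, rho_inv', mul_one]
      simp only [mul_assoc]
    rw [e2, e2, H.comm s t, mul_smul_comm, smul_mul_assoc]
  have h6 : ∀ (x : P) (τ : E ⧸ E0.subgroupOf E), ∀ φ ∈ F, pr ρ b τ φ = 0 →
      pr ρ b (x • τ) φ = 0 := by
    intro x τ φ hφ h0
    have hφx : ρ (x : G)⁻¹ * φ * ρ (x : G) = φ := by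
      have := hφ x
      rw [mul_assoc, ← this, ← mul_assoc, rho_inv', one_mul]
    have e1 : pr ρ b (x • τ) φ = ρ x * pr ρ b τ φ * ρ (x : G)⁻¹ := by
      rw [pr_apply, pr_apply, mul_smul_comm, smul_mul_assoc]
      congr 1
      rw [Finset.mul_sum, Finset.sum_mul]
      symm
      have hx' : ∀ e ∈ E, (x : G)⁻¹ * e * ((x : G)⁻¹)⁻¹ ∈ E := hPE _ (P.inv_mem x.2)
      let eq : E ≃ E :=
        { toFun := cE E (x : G) (hPE x x.2)
          invFun := cE E (x : G)⁻¹ hx'
          left_inv := by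
            intro e
            apply Subtype.ext
            simp only [cE, MonoidHom.coe_mk, OneHom.coe_mk]
            group
          right_inv := by
            intro e
            apply Subtype.ext
            simp only [cE, MonoidHom.coe_mk, OneHom.coe_mk]
            group }
      refine Fintype.sum_equiv eq _ _ ?_
      intro s
      have e2 : b (eq s) (x • τ).out = b s τ.out := by
        have e3 : x • τ = QuotientGroup.mk (cE E (x : G) (hPE x x.2) τ.out) := by
          rw [← hsm, QuotientGroup.out_eq']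
        rw [e3, H.out_eq]
        exact hinvb x s τ.out
      rw [e2, mul_smul_comm, smul_mul_assoc]
      congr 1
      rw [cj_apply, cj_apply]
      have e4 : ρ ((eq s : E) : G) = ρ x * ρ s * ρ (x : G)⁻¹ := by
        rw [← map_mul, ← map_mul]
        rfl
      have e5 : ρ ((eq s : E) : G)⁻¹ = ρ x * ρ (s : G)⁻¹ * ρ (x : G)⁻¹ := by
        rw [← map_mul, ← map_mul]
        congr 1
        change ((x : G) * s * (x : G)⁻¹)⁻¹ = _
        group
      rw [e4, e5]
      have e6 : ρ (x : G) * ρ (s : G) * ρ (x : G)⁻¹ * φ * (ρ (x : G) * ρ (s : G)⁻¹ * ρ (x : G)⁻¹) =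
          ρ (x : G) * (ρ (s : G) * (ρ (x : G)⁻¹ * φ * ρ (x : G)) * ρ (s : G)⁻¹) * ρ (x : G)⁻¹ := by
        simp only [mul_assoc]
      rw [e6, hφx]
    rw [e1, h0, mul_zero, zero_mul]
  set d := finrank k (Wt ρ b (E0 := E0) (QuotientGroup.mk 1)) with hd
  have h2 := count_up (P := P) F (pr ρ b) (Wt ρ b (E0 := E0)) d H.pr_mem
    (fun φ hφ => H.pr_total hφ) H.finrank_eq h6
  have h3 := count_low (pr ρ b) (Wt ρ b (E0 := E0)) d (fun τ v hv => H.pr_self τ hv)
    (fun τ τ' hne v hv => H.pr_other τ τ' hne hv) H.finrank_eq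
  have h4 : finrank k (End k W) = (finrank k W) ^ 2 := by
    rw [Module.finrank_linearMap, sq]
  rw [h4] at h3
  set n := finrank k W with hn
  set o := Nat.card (Quotient (MulAction.orbitRel P (E ⧸ E0.subgroupOf E))) with ho
  have hnpos : 0 < n := finrank_pos
  have h5 : Nat.card (E ⧸ E0.subgroupOf E) * d ≤ ((Nat.card P - 1) * o) * d := by
    calc Nat.card (E ⧸ E0.subgroupOf E) * d ≤ n ^ 2 := h3
      _ ≤ (Nat.card P - 1) * finrank k F := h1
      _ ≤ (Nat.card P - 1) * (o * d) := Nat.mul_le_mul_left _ h2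
      _ = ((Nat.card P - 1) * o) * d := by ring
  have hdpos : 0 < d := by
    rcases Nat.eq_zero_or_pos d with h | h
    · rw [h, mul_zero] at h2
      have : n ^ 2 ≤ 0 := by
        refine h1.trans ?_
        rw [Nat.le_zero.1 h2, mul_zero]
      have : 0 < n ^ 2 := by positivity
      omega
    · exact h
  have h7 := Nat.le_of_mul_le_mul_right h5 hdpos
  have hne : ∃ x : P, x ≠ 1 := by
    by_contra hcon
    push Not at hcon
    obtain ⟨v, hv⟩ := exists_ne (0 : W)
    apply hv
    apply hfix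
    intro x hx
    have : x = 1 := congrArg Subtype.val (hcon ⟨x, hx⟩)
    rw [this, map_one]
    rfl
  obtain ⟨x, hx1, hx2⟩ := burnside hne h7
  refine ⟨x, x.2, fun h => hx1 (Subtype.ext h), ?_⟩
  -- the fixed points form a subgroup
  let FS : Subgroup (E ⧸ E0.subgroupOf E) :=
    { carrier := {τ | x • τ = τ}
      mul_mem' := by
        intro a c ha hc
        change x • (a * c) = a * c
        have : x • (a * c) = (x • a) * (x • c) := map_mul (QuotientGroup.map (E0.subgroupOf E)
          (E0.subgroupOf E) (cE E (x : G) (hPE x x.2)) _) a c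
        rw [this]
        exact congrArg₂ (· * ·) ha hc
      one_mem' := map_one (QuotientGroup.map (E0.subgroupOf E)
          (E0.subgroupOf E) (cE E (x : G) (hPE x x.2)) _)
      inv_mem' := by
        intro a ha
        change x • a⁻¹ = a⁻¹
        have : x • a⁻¹ = (x • a)⁻¹ := map_inv (QuotientGroup.map (E0.subgroupOf E)
          (E0.subgroupOf E) (cE E (x : G) (hPE x x.2)) _) a
        rw [this]
        exact congrArg (·⁻¹) ha }
  have hFS : Nat.card FS = Nat.card (MulAction.fixedBy (E ⧸ E0.subgroupOf E) x) := rfl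
  have hidx : FS.index ≤ (Nat.card P) ^ 2 := by
    have h8 := FS.index_mul_card
    rw [← h8, ← hFS] at hx2
    exact Nat.le_of_mul_le_mul_right hx2 Nat.card_pos
  refine ⟨(FS.comap (QuotientGroup.mk' (E0.subgroupOf E))).map E.subtype, ?_, ?_, ?_⟩
  · rintro _ ⟨e, -, rfl⟩
    exact e.2
  · rintro _ ⟨e, he, rfl⟩
    have h9 : (QuotientGroup.mk (cE E (x : G) (hPE x x.2) e) : E ⧸ E0.subgroupOf E) =
        QuotientGroup.mk e := he
    have h10 : (QuotientGroup.mk (cE E (x : G) (hPE x x.2) e * e⁻¹) : E ⧸ E0.subgroupOf E) = 1 := by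
      rw [QuotientGroup.mk_mul, h9, QuotientGroup.mk_inv, mul_inv_cancel]
    have h11 := (QuotientGroup.eq_one_iff (cE E (x : G) (hPE x x.2) e * e⁻¹)).1 h10
    exact h11
  · rw [Subgroup.relIndex, Subgroup.subgroupOf,
      Subgroup.comap_map_eq_self_of_injective E.subtype_injective,
      Subgroup.index_comap_of_surjective _ (QuotientGroup.mk'_surjective _)]
    exact hidx

end

theorem d : Pool.Agent.Helper867_Rae.S_D := by
  intro p q _ _ k G W _ _ _ _ _ _ _ _ ρ P E E0 hpq hP hfix hPE hc h0 hcomm hnd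
  classical
  have hex : ∀ s t : E, ∃ a : k, ρ (s * t * s⁻¹ * t⁻¹ : E) = a • (1 : End k W) := by
    intro s t
    have := (h0 _).1 (hcomm s s.2 t t.2)
    exact this.2
  choose b hb using hex
  exact D_main ρ p q P E E0 hpq hP hfix hPE b ⟨h0, hnd, hc, hb⟩

end Pool.Agent.Helper695_Rae
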