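import Pool.Agent.Helper867_Rae.Stmts

/-!
The Hom-dimension inequality (D1).
-/

set_option autoImplicit false
set_option linter.unusedSectionVars false

namespace Pool.Agent.Helper695_Rae

open Module

section
variable {k R : Type} [Field k] [Ring R] [Algebra k R]

section one
variable {U V U' V' : Type} [AddCommGroup U] [Module k U] [Module R U] [IsScalarTower k R U]
  [AddCommGroup V] [Module k V] [Module R V] [IsScalarTower k R V]
  [AddCommGroup U'] [Module k U'] [Module R U'] [IsScalarTower k R U']
  [AddCommGroup V'] [Module k V'] [Module R V'] [IsScalarTower k R V']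

/-- transport of the space of homomorphisms -/
def homCongr (e : U ≃ₗ[R] U') (e' : V ≃ₗ[R] V') : (U →ₗ[R] V) ≃ₗ[k] (U' →ₗ[R] V') where
  toFun f := e'.toLinearMap ∘ₗ f ∘ₗ e.symm.toLinearMap
  invFun f := e'.symm.toLinearMap ∘ₗ f ∘ₗ e.toLinearMap
  map_add' f g := by ext x; simp
  map_smul' c f := by
    ext x
    simp only [LinearMap.coe_comp, LinearEquiv.coe_coe, Function.comp_apply, LinearMap.smul_apply,
      RingHom.id_apply]
    exact (e'.toLinearMap.restrictScalars k).map_smul c (f (e.symm x))
  left_inv f := by ext x; simp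
  right_inv f := by ext x; simp

theorem fin_hom [FiniteDimensional k U] [FiniteDimensional k V] :
    FiniteDimensional k (U →ₗ[R] V) := by
  let g : (U →ₗ[R] V) →ₗ[k] (U →ₗ[k] V) :=
    { toFun := fun f => f.restrictScalars k
      map_add' := fun f g => rfl
      map_smul' := fun c f => rfl }
  refine FiniteDimensional.of_injective g ?_
  intro f f' h
  ext x
  exact congrArg (fun F : U →ₗ[k] V => F x) h

end one

section two
variable {U V W : Type} [AddCommGroup U] [Module k U] [Module R U] [IsScalarTower k R U]
  [AddCommGroup V] [Module k V] [Module R V] [IsScalarTower k R V]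
  [AddCommGroup W] [Module k W] [Module R W] [IsScalarTower k R W]
  [FiniteDimensional k U] [FiniteDimensional k V] [FiniteDimensional k W]

theorem hom_prod_left : finrank k (U × V →ₗ[R] W) =
    finrank k (U →ₗ[R] W) + finrank k (V →ₗ[R] W) := by
  have := fin_hom (k := k) (R := R) (U := U) (V := W)
  have := fin_hom (k := k) (R := R) (U := V) (V := W)
  rw [← (LinearMap.coprodEquiv k (R := R) (M := U) (M₂ := V) (M₃ := W)).finrank_eq, finrank_prod]

theorem hom_prod_right : finrank k (W →ₗ[R] U × V) =
    finrank k (W →ₗ[R] U) + finrank k (W →ₗ[R] V) := by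
  have := fin_hom (k := k) (R := R) (U := W) (V := U)
  have := fin_hom (k := k) (R := R) (U := W) (V := V)
  rw [← (LinearMap.prodEquiv k (R := R) (M := W) (M₂ := U) (M₃ := V)).finrank_eq, finrank_prod]

end two

variable [IsSemisimpleRing R]

theorem key (m : ℕ) : ∀ (U V : Type) [AddCommGroup U] [Module k U] [Module R U]
    [IsScalarTower k R U] [AddCommGroup V] [Module k V] [Module R V] [IsScalarTower k R V]
    [FiniteDimensional k U] [FiniteDimensional k V], finrank k U + finrank k V ≤ m →
    finrank k (U →ₗ[R] V) = finrank k (V →ₗ[R] U) ∧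
    2 * finrank k (U →ₗ[R] V) ≤ finrank k (U →ₗ[R] U) + finrank k (V →ₗ[R] V) := by
  induction m using Nat.strong_induction_on with
  | _ m ih =>
  -- the step, given a nonzero map
  have step : ∀ (U V : Type) [AddCommGroup U] [Module k U] [Module R U]
    [IsScalarTower k R U] [AddCommGroup V] [Module k V] [Module R V] [IsScalarTower k R V]
    [FiniteDimensional k U] [FiniteDimensional k V], finrank k U + finrank k V ≤ m →
    (∃ f : U →ₗ[R] V, f ≠ 0) →
    finrank k (U →ₗ[R] V) = finrank k (V →ₗ[R] U) ∧
    2 * finrank k (U →ₗ[R] V) ≤ finrank k (U →ₗ[R] U) + finrank k (V →ₗ[R] V) := by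
    intro U V _ _ _ _ _ _ _ _ _ _ hm ⟨f, hf⟩
    obtain ⟨K', hK'⟩ := exists_isCompl (LinearMap.ker f)
    obtain ⟨V1, hV1⟩ := exists_isCompl (LinearMap.range f)
    let M := LinearMap.range f
    let K := LinearMap.ker f
    have eK : K' ≃ₗ[R] M := LinearMap.kerComplementEquivRange f hK'.symm
    have eU : (K × K') ≃ₗ[R] U := Submodule.prodEquivOfIsCompl K K' hK'
    have eU' : U ≃ₗ[R] (K × M) := eU.symm.trans ((LinearEquiv.refl R K).prodCongr eK)
    have eV : V ≃ₗ[R] (M × V1) := (Submodule.prodEquivOfIsCompl M V1 hV1).symm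
    have : FiniteDimensional k K := FiniteDimensional.of_injective
      (K.subtype.restrictScalars k) Subtype.val_injective
    have : FiniteDimensional k M := FiniteDimensional.of_injective
      (M.subtype.restrictScalars k) Subtype.val_injective
    have : FiniteDimensional k V1 := FiniteDimensional.of_injective
      (V1.subtype.restrictScalars k) Subtype.val_injective
    have dU : finrank k U = finrank k K + finrank k M := by
      rw [(eU'.restrictScalars k).finrank_eq, finrank_prod]
    have dV : finrank k V = finrank k M + finrank k V1 := by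
      rw [(eV.restrictScalars k).finrank_eq, finrank_prod]
    have hM : 0 < finrank k M := by
      rw [Module.finrank_pos_iff]
      obtain ⟨x, hx⟩ : ∃ x, f x ≠ 0 := by
        by_contra hcon
        push Not at hcon
        exact hf (LinearMap.ext hcon)
      exact ⟨⟨f x, LinearMap.mem_range_self f x⟩, 0, fun h => hx (congrArg Subtype.val h)⟩
    have hU : 0 < finrank k U := by omega
    have hV : 0 < finrank k V := by omega
    have h1 := ih (finrank k K + finrank k M) (by omega) K M le_rfl
    have h2 := ih (finrank k K + finrank k V1) (by omega) K V1 le_rfl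
    have h3 := ih (finrank k M + finrank k V1) (by omega) M V1 le_rfl
    have eUV : finrank k (U →ₗ[R] V) = finrank k (K →ₗ[R] M) + finrank k (K →ₗ[R] V1) +
        finrank k (M →ₗ[R] M) + finrank k (M →ₗ[R] V1) := by
      rw [(homCongr (k := k) eU' eV).finrank_eq, hom_prod_left, hom_prod_right, hom_prod_right]
      ring
    have eVU : finrank k (V →ₗ[R] U) = finrank k (M →ₗ[R] K) + finrank k (V1 →ₗ[R] K) +
        finrank k (M →ₗ[R] M) + finrank k (V1 →ₗ[R] M) := by
      rw [(homCongr (k := k) eV eU').finrank_eq, hom_prod_left, hom_prod_right, hom_prod_right]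
      ring
    have eUU : finrank k (U →ₗ[R] U) = finrank k (K →ₗ[R] K) + finrank k (K →ₗ[R] M) +
        finrank k (M →ₗ[R] K) + finrank k (M →ₗ[R] M) := by
      rw [(homCongr (k := k) eU' eU').finrank_eq, hom_prod_left, hom_prod_right, hom_prod_right]
      ring
    have eVV : finrank k (V →ₗ[R] V) = finrank k (M →ₗ[R] M) + finrank k (M →ₗ[R] V1) +
        finrank k (V1 →ₗ[R] M) + finrank k (V1 →ₗ[R] V1) := by
      rw [(homCongr (k := k) eV eV).finrank_eq, hom_prod_left, hom_prod_right, hom_prod_right]
      ring
    omega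
  intro U V _ _ _ _ _ _ _ _ _ _ hm
  by_cases h1 : ∃ f : U →ₗ[R] V, f ≠ 0
  · exact step U V hm h1
  by_cases h2 : ∃ f : V →ₗ[R] U, f ≠ 0
  · have h3 := step V U (by omega) h2
    omega
  push Not at h1 h2
  have e1 : finrank k (U →ₗ[R] V) = 0 := by
    have : Subsingleton (U →ₗ[R] V) := ⟨fun a b => by rw [h1 a, h1 b]⟩
    exact finrank_zero_of_subsingleton
  have e2 : finrank k (V →ₗ[R] U) = 0 := by
    have : Subsingleton (V →ₗ[R] U) := ⟨fun a b => by rw [h2 a, h2 b]⟩
    exact finrank_zero_of_subsingleton
  omega

theorem hom_symm (U V : Type) [AddCommGroup U] [Module k U] [Module R U]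
    [IsScalarTower k R U] [AddCommGroup V] [Module k V] [Module R V] [IsScalarTower k R V]
    [FiniteDimensional k U] [FiniteDimensional k V] :
    finrank k (U →ₗ[R] V) = finrank k (V →ₗ[R] U) :=
  (key (k := k) (R := R) _ U V le_rfl).1

theorem hom_ineq (U V : Type) [AddCommGroup U] [Module k U] [Module R U]
    [IsScalarTower k R U] [AddCommGroup V] [Module k V] [Module R V] [IsScalarTower k R V]
    [FiniteDimensional k U] [FiniteDimensional k V] :
    2 * finrank k (U →ₗ[R] V) ≤ finrank k (U →ₗ[R] U) + finrank k (V →ₗ[R] V) :=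
  (key (k := k) (R := R) _ U V le_rfl).2

theorem hom_pi (a : ℕ) (U V : Type) [AddCommGroup U] [Module k U] [Module R U]
    [IsScalarTower k R U] [AddCommGroup V] [Module k V] [Module R V] [IsScalarTower k R V]
    [FiniteDimensional k U] [FiniteDimensional k V] :
    finrank k ((Fin a → U) →ₗ[R] V) = a * finrank k (U →ₗ[R] V) := by
  have := fin_hom (k := k) (R := R) (U := U) (V := V)
  rw [← (LinearMap.lsum R (fun _ : Fin a => U) k (M := V)).finrank_eq, finrank_pi_fintype]
  simp

/-- the inequality for a semisimple algebra -/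
theorem main_ineq [FiniteDimensional k R] (W : Type) [AddCommGroup W] [Module k W] [Module R W]
    [IsScalarTower k R W] [FiniteDimensional k W] :
    (finrank k W) ^ 2 ≤ finrank k R * finrank k (W →ₗ[R] W) := by
  have e1 : finrank k (R →ₗ[R] W) = finrank k W :=
    (LinearMap.ringLmapEquivSelf R k W).finrank_eq
  have e2 : finrank k (R →ₗ[R] R) = finrank k R :=
    (LinearMap.ringLmapEquivSelf R k R).finrank_eq
  rcases Nat.eq_zero_or_pos (finrank k R) with h0 | hpos
  · have h1 : Subsingleton R := by
      have := Module.finrank_zero_iff (R := k) (M := R)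
      exact this.1 h0
    have h2 : Subsingleton W := Module.subsingleton R W
    rw [finrank_zero_of_subsingleton (R := k) (M := W)]
    simp
  set a := finrank k R with ha
  set n := finrank k W with hn
  have h1 := hom_ineq (k := k) (R := R) (Fin a → W) (Fin n → R)
  rw [hom_pi a W (Fin n → R), hom_symm W (Fin n → R), hom_pi n R W, e1, hom_pi a W (Fin a → W),
    hom_symm W (Fin a → W), hom_pi a W W, hom_pi n R (Fin n → R), hom_symm R (Fin n → R),
    hom_pi n R R, e2] at h1
  have h2 : a * n ^ 2 ≤ a * (a * finrank k (W →ₗ[R] W)) := by nlinarith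
  exact Nat.le_of_mul_le_mul_left h2 hpos

end

theorem card_ne_zero {p q : ℕ} [Fact p.Prime] [Fact q.Prime] {k P : Type} [Field k] [CharP k q]
    [Group P] [Finite P] (hpq : p ≠ q) (hP : IsPGroup p P) : ((Nat.card P : ℕ) : k) ≠ 0 := by
  obtain ⟨n, hn⟩ := IsPGroup.iff_card.1 hP
  rw [hn, Nat.cast_pow]
  apply pow_ne_zero
  intro h
  rw [CharP.cast_eq_zero_iff k q] at h
  exact hpq ((Nat.prime_dvd_prime_iff_eq Fact.out Fact.out).1 h).symm

theorem d1 : Pool.Agent.Helper867_Rae.S_D1 := by
  intro p q _ _ k P W _ _ _ _ _ _ _ ρ E hpq hP hfix hE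
  classical
  have := Fintype.ofFinite P
  have hne : NeZero ((Nat.card P : ℕ) : k) := ⟨card_ne_zero hpq hP⟩
  let Λ := MonoidAlgebra.lift k (Module.End k W) P ρ
  let A : Subalgebra k (Module.End k W) := Λ.range
  have hss : IsSemisimpleRing A := RingHom.isSemisimpleRing_of_surjective
    (Λ.rangeRestrict : MonoidAlgebra k P →+* A) Λ.rangeRestrict_surjective
  have hmem : ∀ x : P, ρ x ∈ A := fun x => ⟨MonoidAlgebra.of k P x, MonoidAlgebra.lift_of ρ x⟩
  have hA : finrank k A ≤ Nat.card P - 1 := by
    let S : Finset (Module.End k W) := (Finset.univ.erase (1 : P)).image ρ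
    have h0 : ∑ x : P, ρ x = 0 := by
      ext v
      rw [LinearMap.sum_apply, LinearMap.zero_apply]
      apply hfix
      intro y
      rw [map_sum]
      refine Fintype.sum_equiv (Equiv.mulLeft y) _ _ ?_
      intro x
      rw [Equiv.coe_mulLeft, map_mul]
      rfl
    have h1 : ∀ x : P, ρ x ∈ Submodule.span k (S : Set (Module.End k W)) := by
      have h2 : ∀ x : P, x ≠ 1 → ρ x ∈ Submodule.span k (S : Set (Module.End k W)) := by
        intro x hx
        apply Submodule.subset_span
        exact Finset.mem_coe.2 (Finset.mem_image.2 ⟨x, Finset.mem_erase.2 ⟨hx, Finset.mem_univ _⟩, rfl⟩)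
      intro x
      by_cases hx : x = 1
      · have h3 : ρ 1 = - ∑ x ∈ Finset.univ.erase (1 : P), ρ x := by
          rw [← Finset.add_sum_erase _ _ (Finset.mem_univ (1 : P))] at h0
          exact eq_neg_of_add_eq_zero_left h0
        rw [hx, h3]
        exact Submodule.neg_mem _ (Submodule.sum_mem _ (fun y hy => h2 y (Finset.mem_erase.1 hy).1))
      · exact h2 x hx
    have h4 : Subalgebra.toSubmodule A ≤ Submodule.span k (S : Set (Module.End k W)) := by
      rintro _ ⟨f, rfl⟩
      change Λ f ∈ _
      rw [MonoidAlgebra.lift_apply']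
      refine Submodule.sum_mem _ (fun x _ => ?_)
      change (algebraMap k (Module.End k W)) (f.coeff x) * ρ x ∈ _
      rw [← Algebra.smul_def]
      exact Submodule.smul_mem _ _ (h1 x)
    calc finrank k A = finrank k (Subalgebra.toSubmodule A) := rfl
      _ ≤ finrank k (Submodule.span k (S : Set (Module.End k W))) := Submodule.finrank_mono h4
      _ ≤ S.card := finrank_span_finset_le_card S
      _ ≤ (Finset.univ.erase (1 : P)).card := Finset.card_image_le
      _ = Nat.card P - 1 := by
        rw [Finset.card_erase_of_mem (Finset.mem_univ _), Finset.card_univ, Nat.card_eq_fintype_card]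
  have hEnd : finrank k (W →ₗ[A] W) ≤ finrank k E := by
    let g : (W →ₗ[A] W) →ₗ[k] E :=
      { toFun := fun f => ⟨f.restrictScalars k, by
          rw [hE]
          intro x
          ext v
          exact (f.map_smul (⟨ρ x, hmem x⟩ : A) v).symm⟩
        map_add' := fun f g => rfl
        map_smul' := fun c f => rfl }
    refine LinearMap.finrank_le_finrank_of_injective (f := g) ?_
    intro f f' h
    ext v
    have h1 := congrArg Subtype.val h
    exact congrArg (fun F : W →ₗ[k] W => F v) h1
  have h1 := main_ineq (k := k) (R := A) W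
  calc finrank k W ^ 2 ≤ finrank k A * finrank k (W →ₗ[A] W) := h1
    _ ≤ (Nat.card P - 1) * finrank k E := Nat.mul_le_mul hA hEnd

end Pool.Agent.Helper695_Rae
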